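import Pool.Agent.P8H69.IE.Stm

/-!
# Project IE: counting the exceptional sets
-/

set_option autoImplicit false

open Finset

namespace Pool.Agent.P8H80.IE

open Pool.Agent.P8H69.IE

lemma nz {n m : ℕ} (h0 : 0 < m) (h : m < n) : (m : ZMod n) ≠ 0 := fun h1 => by
  have h2 := (CharP.cast_eq_zero_iff (ZMod n) n m).1 h1
  exact absurd (Nat.le_of_dvd h0 h2) (by omega)

section
variable {n : ℕ} [NeZero n]

lemma card_four {a b c d : ZMod n} (h1 : a ≠ b) (h2 : a ≠ c) (h3 : a ≠ d) (h4 : b ≠ c)
    (h5 : b ≠ d) (h6 : c ≠ d) : ({a, b, c, d} : Finset (ZMod n)).card = 4 := by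
  rw [card_insert_of_notMem, card_insert_of_notMem, card_pair h6]
  · simp [h4, h5]
  · simp [h1, h2, h3]

lemma card_comp (m : ℕ) {T : Finset (ZMod n)} (hT : T.card = 4) :
    (powersetCard m (univ \ T)).card = (n - 4).choose m := by
  rw [card_powersetCard, card_sdiff_of_subset (subset_univ T), hT, card_univ, ZMod.card]

lemma mem_comp {m : ℕ} {Z T : Finset (ZMod n)} (hZ : Z.card = m) (h : ∀ x ∈ T, x ∉ Z) :
    Z ∈ powersetCard m (univ \ T) := by
  rw [mem_powersetCard]
  refine ⟨fun x hx => ?_, hZ⟩
  rw [mem_sdiff]
  exact ⟨mem_univ x, fun hxT => h x hxT hx⟩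

end

theorem cnt : S_CNT := by
  intro n k d _ hn hd B hB
  set T1 : ZMod n × ZMod n → Finset (ZMod n) := fun p => {p.1, p.1 + 1, p.2, p.2 + 1} with hT1
  set T2 : ZMod n × (ℕ × ℕ) → Finset (ZMod n) :=
    fun p => {p.1, p.1 + 1, p.1 + 2 + (p.2.1 : ZMod n), p.1 - 1 - (p.2.2 : ZMod n)} with hT2
  set P1 : Finset (ZMod n × ZMod n) := univ.filter fun p => (T1 p).card = 4 with hP1
  set P2 : Finset (ZMod n × (ℕ × ℕ)) :=
    (univ ×ˢ (range (2 * d) ×ˢ range (2 * d))).filter fun p => (T2 p).card = 4 with hP2
  have hsub : B ⊆ (P1.biUnion fun p => powersetCard (2 * k) (univ \ T1 p)) ∪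
      (P2.biUnion fun p => powersetCard (2 * k) (univ \ T2 p)) := by
    intro Z hZ
    obtain ⟨hZc, i, hi, hi1, hbad⟩ := hB Z hZ
    have e1 : (1 : ZMod n) ≠ 0 := by
      have := nz (n := n) (m := 1) one_pos (by omega)
      simpa using this
    rw [mem_union]
    rcases hbad with ⟨j, hj, hj1, h1, h2, h3⟩ | ⟨s, t, hs, ht, h1, h2⟩
    · left
      rw [mem_biUnion]
      refine ⟨(i, j), ?_, mem_comp hZc ?_⟩
      · rw [hP1, mem_filter]
        refine ⟨mem_univ _, card_four ?_ ?_ ?_ ?_ ?_ ?_⟩
        · exact fun h => e1 (by simpa using h)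
        · exact fun h => h1 h.symm
        · exact fun h => h3 h.symm
        · exact fun h => h2 h.symm
        · exact fun h => h1 (add_right_cancel h).symm
        · exact fun h => e1 (by simpa using h)
      · intro x hx
        simp only [hT1, mem_insert, mem_singleton] at hx
        rcases hx with rfl | rfl | rfl | rfl
        · exact hi
        · exact hi1
        · exact hj
        · exact hj1
    · right
      rw [mem_biUnion]
      refine ⟨(i, (s, t)), ?_, mem_comp hZc ?_⟩
      · rw [hP2, mem_filter, mem_product, mem_product, mem_range, mem_range]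
        refine ⟨⟨mem_univ _, hs, ht⟩, card_four ?_ ?_ ?_ ?_ ?_ ?_⟩
        · exact fun h => e1 (by simpa using h)
        · intro h
          have h3 : ((s + 2 : ℕ) : ZMod n) = 0 := by
            push_cast
            linear_combination -h
          exact nz (by omega) (by omega) h3
        · intro h
          have h3 : ((t + 1 : ℕ) : ZMod n) = 0 := by
            push_cast
            linear_combination h
          exact nz (by omega) (by omega) h3
        · intro h
          have h3 : ((s + 1 : ℕ) : ZMod n) = 0 := by
            push_cast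
            linear_combination -h
          exact nz (by omega) (by omega) h3
        · intro h
          have h3 : ((t + 2 : ℕ) : ZMod n) = 0 := by
            push_cast
            linear_combination h
          exact nz (by omega) (by omega) h3
        · intro h
          have h3 : ((s + t + 3 : ℕ) : ZMod n) = 0 := by
            push_cast
            linear_combination h
          exact nz (by omega) (by omega) h3
      · intro x hx
        simp only [hT2, mem_insert, mem_singleton] at hx
        rcases hx with rfl | rfl | rfl | rfl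
        · exact hi
        · exact hi1
        · exact h1
        · exact h2
  have hc1 : (P1.biUnion fun p => powersetCard (2 * k) (univ \ T1 p)).card ≤
      n ^ 2 * (n - 4).choose (2 * k) := by
    refine (card_biUnion_le_card_mul _ _ ((n - 4).choose (2 * k)) fun p hp => ?_).trans
      (Nat.mul_le_mul_right _ ?_)
    · rw [hP1, mem_filter] at hp
      exact (card_comp _ hp.2).le
    · refine (card_filter_le _ _).trans (le_of_eq ?_)
      rw [card_univ, Fintype.card_prod, ZMod.card, sq]
  have hc2 : (P2.biUnion fun p => powersetCard (2 * k) (univ \ T2 p)).card ≤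
      n * (2 * d) ^ 2 * (n - 4).choose (2 * k) := by
    refine (card_biUnion_le_card_mul _ _ ((n - 4).choose (2 * k)) fun p hp => ?_).trans
      (Nat.mul_le_mul_right _ ?_)
    · rw [hP2, mem_filter] at hp
      exact (card_comp _ hp.2).le
    · refine (card_filter_le _ _).trans (le_of_eq ?_)
      rw [card_product, card_product, card_range, card_univ, ZMod.card, sq]
  calc B.card ≤ _ := card_le_card hsub
    _ ≤ _ := card_union_le _ _
    _ ≤ n ^ 2 * (n - 4).choose (2 * k) + n * (2 * d) ^ 2 * (n - 4).choose (2 * k) :=
        Nat.add_le_add hc1 hc2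
    _ = _ := by ring

end Pool.Agent.P8H80.IE
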